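import Pool.Agent.Y184.SP.Base

/-!
Project SP (helper184), job SP-Phi (helper310): local potentials of the class.
-/

set_option autoImplicit false

open Set Topology Filter
open scoped ContDiff

namespace Pool.Agent.Y310.SP

open Pool.Agent.Y184.SP
open InnerProductSpace

/-! ### The reduction modulo the lattice -/

theorem red_re (x : ℂ) : (red x).re = x.re - round x.re := by simp [red]

theorem red_im (x : ℂ) : (red x).im = x.im - round x.im := by simp [red]

theorem red_add (x l : ℂ) (hl : l ∈ Lam) : red (x + l) = red x := by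
  obtain ⟨m, n, rfl⟩ := hl
  apply Complex.ext
  · rw [red_re, red_re]
    have : (x + ((m : ℂ) + (n : ℂ) * Complex.I)).re = x.re + (m : ℝ) := by simp
    rw [this, round_add_intCast]
    push_cast
    ring
  · rw [red_im, red_im]
    have : (x + ((m : ℂ) + (n : ℂ) * Complex.I)).im = x.im + (n : ℝ) := by simp
    rw [this, round_add_intCast]
    push_cast
    ring

theorem per_phi : Per Phi := by
  intro x y l hl
  simp only [Phi, L2, chi, red_add x l hl]

theorem sub_red_mem (x : ℂ) : x - red x ∈ Lam := by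
  refine ⟨round x.re, round x.im, ?_⟩
  simp only [red]
  ring

theorem red_eq_zero_iff (x : ℂ) : red x = 0 ↔ x ∈ Lam := by
  constructor
  · intro h
    have := sub_red_mem x
    rwa [h, sub_zero] at this
  · intro h
    have h1 := red_add 0 x h
    rw [zero_add] at h1
    rw [h1]
    simp [red]

theorem cont_abs_round : Continuous (fun r : ℝ => |r - (round r : ℝ)|) := by
  have key : ∀ r s : ℝ, |r - (round r : ℝ)| ≤ |s - (round s : ℝ)| + |r - s| := by
    intro r s
    calc |r - (round r : ℝ)| ≤ |r - (round s : ℝ)| := round_le r (round s)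
      _ = |(s - (round s : ℝ)) + (r - s)| := by ring_nf
      _ ≤ |s - (round s : ℝ)| + |r - s| := abs_add_le _ _
  have : LipschitzWith 1 (fun r : ℝ => |r - (round r : ℝ)|) := by
    refine LipschitzWith.of_dist_le_mul (fun r s => ?_)
    rw [Real.dist_eq, Real.dist_eq, NNReal.coe_one, one_mul, abs_le]
    have h1 := key r s
    have h2 := key s r
    rw [abs_sub_comm s r] at h2
    constructor <;> linarith
  exact this.continuous

theorem cont_norm_red : Continuous (fun x : ℂ => ‖red x‖) := by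
  have h : (fun x : ℂ => ‖red x‖) = fun x : ℂ =>
      Real.sqrt (|x.re - (round x.re : ℝ)| ^ 2 + |x.im - (round x.im : ℝ)| ^ 2) := by
    funext x
    rw [Complex.norm_eq_sqrt_sq_add_sq, red_re, red_im, sq_abs, sq_abs]
  rw [h]
  exact Real.continuous_sqrt.comp (((cont_abs_round.comp Complex.continuous_re).pow 2).add
    ((cont_abs_round.comp Complex.continuous_im).pow 2))

theorem isOpen_W : IsOpen W := by
  have h : W = {z : E | ‖red z.1‖ ≠ 0} ∩ {z : E | z.2 ≠ 0} := by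
    ext z
    simp only [W, Set.mem_ofPred_eq, Set.mem_inter_iff, norm_ne_zero_iff, ne_eq, red_eq_zero_iff]
  rw [h]
  exact (isOpen_ne_fun (cont_norm_red.comp continuous_fst) continuous_const).inter
    (isOpen_ne_fun continuous_snd continuous_const)

theorem round_eq_of (r : ℝ) (n : ℤ) (h : |r - n| < 1 / 2) : round r = n := by
  rw [round_eq, Int.floor_eq_iff]
  have := abs_lt.1 h
  constructor <;> linarith [this.1, this.2]

theorem red_local (x : ℂ) (h : ‖red x‖ < 1 / 2) : ∀ᶠ x' in 𝓝 x, red x' = x' - (x - red x) := by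
  have h1 : |x.re - (round x.re : ℝ)| < 1 / 2 := by
    rw [← red_re]
    exact lt_of_le_of_lt (Complex.abs_re_le_norm _) h
  have h2 : |x.im - (round x.im : ℝ)| < 1 / 2 := by
    rw [← red_im]
    exact lt_of_le_of_lt (Complex.abs_im_le_norm _) h
  have e1 : ∀ᶠ x' : ℂ in 𝓝 x, |x'.re - (round x.re : ℝ)| < 1 / 2 :=
    (Continuous.continuousAt (by fun_prop : Continuous fun x' : ℂ => |x'.re - (round x.re : ℝ)|)).eventually
      (gt_mem_nhds h1)
  have e2 : ∀ᶠ x' : ℂ in 𝓝 x, |x'.im - (round x.im : ℝ)| < 1 / 2 :=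
    (Continuous.continuousAt (by fun_prop : Continuous fun x' : ℂ => |x'.im - (round x.im : ℝ)|)).eventually
      (gt_mem_nhds h2)
  filter_upwards [e1, e2] with x' h3 h4
  rw [red, round_eq_of _ _ h3, round_eq_of _ _ h4]
  simp only [red]
  ring

theorem chi_zero (x : ℂ) (h : 1 / 4 ≤ ‖red x‖) : chi x = 0 := by
  apply bump.zero_of_le_dist
  rw [dist_zero_right]
  exact h

theorem chi_one (x : ℂ) (h : ‖red x‖ ≤ 1 / 8) : chi x = 1 := by
  apply bump.one_of_mem_closedBall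
  rw [mem_closedBall_zero_iff]
  exact h

theorem red_small (x : ℂ) (h : ‖x‖ < 1 / 2) : red x = x := by
  have h1 : |x.re - ((0 : ℤ) : ℝ)| < 1 / 2 := by
    rw [Int.cast_zero, sub_zero]
    exact lt_of_le_of_lt (Complex.abs_re_le_norm _) h
  have h2 : |x.im - ((0 : ℤ) : ℝ)| < 1 / 2 := by
    rw [Int.cast_zero, sub_zero]
    exact lt_of_le_of_lt (Complex.abs_im_le_norm _) h
  rw [red, round_eq_of _ _ h1, round_eq_of _ _ h2]
  simp

/-! ### Pluriharmonic functions -/

theorem lev_congr {f g : E → ℝ} {z : E} (h : f =ᶠ[𝓝 z] g) (v : E) : lev f z v = lev g z v := by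
  unfold lev
  have hc : Tendsto (fun ζ : ℂ => z + ζ • v) (𝓝 0) (𝓝 z) := by
    have : Continuous (fun ζ : ℂ => z + ζ • v) := by fun_prop
    have h2 := this.tendsto 0
    simpa using h2
  have h3 : (fun ζ : ℂ => f (z + ζ • v)) =ᶠ[𝓝 0] fun ζ : ℂ => g (z + ζ • v) := h.comp_tendsto hc
  exact (laplacian_congr_nhds h3).eq_of_nhds

theorem harm (g : E → ℂ) (z v : E) (hg : AnalyticAt ℂ g z) (h0 : g z ≠ 0) :
    HarmonicAt (fun ζ : ℂ => Real.log ‖g (z + ζ • v)‖) 0 := by
  have h1 : AnalyticAt ℂ (fun ζ : ℂ => z + ζ • v) 0 := by fun_prop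
  have h2 : AnalyticAt ℂ (fun ζ : ℂ => g (z + ζ • v)) 0 := by
    refine AnalyticAt.fun_comp (g := g) ?_ h1
    simpa using hg
  exact h2.harmonicAt_log_norm (by simpa using h0)

theorem lev_log (a b : ℝ) (g₁ g₂ : E → ℂ) (z v : E) (h1 : AnalyticAt ℂ g₁ z) (h10 : g₁ z ≠ 0)
    (h2 : AnalyticAt ℂ g₂ z) (h20 : g₂ z ≠ 0) :
    lev (fun t => a * Real.log ‖g₁ t‖ + b * Real.log ‖g₂ t‖) z v = 0 := by
  have h := ((harm g₁ z v h1 h10).const_smul (c := a)).add ((harm g₂ z v h2 h20).const_smul (c := b))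
  exact h.2.eq_of_nhds

theorem potAt_of (j : Fin 5) (z : E) (ρ : E → ℝ) (a b : ℝ) (g₁ g₂ : E → ℂ) (hρ : SmAt ρ z)
    (hc : ∀ z', tr j z' ∈ W → ContinuousAt (tr j) z')
    (h1 : ∀ z', AnalyticAt ℂ g₁ z') (h2 : ∀ z', AnalyticAt ℂ g₂ z')
    (hn : ∀ᶠ z' in 𝓝 z, tr j z' ∈ W → g₁ z' ≠ 0 ∧ g₂ z' ≠ 0)
    (he : ∀ᶠ z' in 𝓝 z, tr j z' ∈ W →
      ρ z' - Phi (tr j z') = a * Real.log ‖g₁ z'‖ + b * Real.log ‖g₂ z'‖) :
    ∃ ρ, PotAt Phi j z ρ := by
  refine ⟨ρ, hρ, ?_⟩
  filter_upwards [hn, he.eventually_nhds] with z' h3 h4 hW v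
  have h5 : ∀ᶠ z'' in 𝓝 z', tr j z'' ∈ W := (hc z' hW).eventually (isOpen_W.mem_nhds hW)
  have h6 : (fun t => ρ t - Phi (tr j t)) =ᶠ[𝓝 z'] fun t => a * Real.log ‖g₁ t‖ + b * Real.log ‖g₂ t‖ := by
    filter_upwards [h4, h5] with t h7 h8
    exact h7 h8
  rw [lev_congr h6]
  exact lev_log a b g₁ g₂ z' v (h1 z') (h3 hW).1 (h2 z') (h3 hW).2

/-! ### Smooth functions -/

theorem sm_log {a : E → ℝ} {z : E} (ha : ContDiffAt ℝ ∞ a z) (h : a z ≠ 0) :
    ContDiffAt ℝ ∞ (fun t => Real.log (a t)) z := ha.log h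

theorem sm_nsq {g : E → ℂ} {z : E} (hg : ContDiffAt ℝ ∞ g z) : ContDiffAt ℝ ∞ (fun t => ‖g t‖ ^ 2) z :=
  hg.norm_sq ℝ

theorem sm_n4 {g : E → ℂ} {z : E} (hg : ContDiffAt ℝ ∞ g z) : ContDiffAt ℝ ∞ (fun t => ‖g t‖ ^ 4) z := by
  have h := (hg.norm_sq ℝ).pow 2
  have e : (fun t => (‖g t‖ ^ 2) ^ 2) = fun t => ‖g t‖ ^ 4 := by
    funext t
    ring
  rwa [e] at h

theorem one_add_ne {x : ℂ} : (1 : ℝ) + ‖x‖ ^ 2 ≠ 0 := by positivity

theorem sm_L {g : E → ℂ} {z : E} (hg : ContDiffAt ℝ ∞ g z) :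
    ContDiffAt ℝ ∞ (fun t => Real.log (1 + ‖g t‖ ^ 2)) z :=
  sm_log (contDiffAt_const.add (sm_nsq hg)) one_add_ne

theorem sm_fst (l : ℂ) (z : E) : ContDiffAt ℝ ∞ (fun t : E => t.1 - l) z := by fun_prop

theorem sm_snd (z : E) : ContDiffAt ℝ ∞ (fun t : E => t.2) z := by fun_prop

theorem sm_bump (l : ℂ) (z : E) : ContDiffAt ℝ ∞ (fun t : E => (bump (t.1 - l) : ℝ)) z :=
  bump.contDiff.contDiffAt.comp z (sm_fst l z)

/-- chart 0 and 1: the numerator of `L2` -/
theorem pos0 {u y : ℂ} (h : u ≠ 0 ∨ y ≠ 0) : 0 < ‖y - u‖ ^ 2 + ‖u‖ ^ 4 := by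
  by_cases hu : u = 0
  · subst hu
    have : y ≠ 0 := by simpa using h
    have := norm_pos_iff.2 this
    simp only [sub_zero, norm_zero]
    positivity
  · have := norm_pos_iff.2 hu
    positivity

theorem pos1 (u y : ℂ) : 0 < ‖1 - u * y‖ ^ 2 + ‖u‖ ^ 4 * ‖y‖ ^ 2 := by
  by_cases h : 1 - u * y = 0
  · have hu : u ≠ 0 := by
      rintro rfl
      simp at h
    have hy : y ≠ 0 := by
      rintro rfl
      simp at h
    have := norm_pos_iff.2 hu
    have := norm_pos_iff.2 hy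
    positivity
  · have := norm_pos_iff.2 h
    positivity

/-- the local form of `L2 - log |x|^2` in chart 0 -/
noncomputable def M0 (l : ℂ) (t : E) : ℝ := Real.log ((‖t.2 - (t.1 - l)‖ ^ 2 + ‖t.1 - l‖ ^ 4) / (1 + ‖t.2‖ ^ 2))

/-- the local form of `L2 - log |x|^2` in chart 1 -/
noncomputable def M1 (l : ℂ) (t : E) : ℝ :=
  Real.log ((‖1 - (t.1 - l) * t.2‖ ^ 2 + ‖t.1 - l‖ ^ 4 * ‖t.2‖ ^ 2) / (1 + ‖t.2‖ ^ 2))

theorem sm_M0 (l : ℂ) (z : E) (h : z.1 - l ≠ 0 ∨ z.2 ≠ 0) : ContDiffAt ℝ ∞ (M0 l) z := by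
  refine sm_log ?_ (div_ne_zero (pos0 h).ne' one_add_ne)
  refine ContDiffAt.div ?_ (contDiffAt_const.add (sm_nsq (sm_snd z))) one_add_ne
  exact (sm_nsq ((sm_snd z).sub (sm_fst l z))).add (sm_n4 (sm_fst l z))

theorem sm_M1 (l : ℂ) (z : E) : ContDiffAt ℝ ∞ (M1 l) z := by
  refine sm_log ?_ (div_ne_zero (pos1 _ _).ne' one_add_ne)
  refine ContDiffAt.div ?_ (contDiffAt_const.add (sm_nsq (sm_snd z))) one_add_ne
  refine (sm_nsq (contDiffAt_const.sub ((sm_fst l z).mul (sm_snd z)))).add ?_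
  exact (sm_n4 (sm_fst l z)).mul (sm_nsq (sm_snd z))

theorem log_one_inv (y : ℂ) (hy : y ≠ 0) :
    Real.log (1 + ‖y⁻¹‖ ^ 2) = Real.log (1 + ‖y‖ ^ 2) - 2 * Real.log ‖y‖ := by
  have h : 0 < ‖y‖ := norm_pos_iff.2 hy
  have e : 1 + ‖y⁻¹‖ ^ 2 = (1 + ‖y‖ ^ 2) / ‖y‖ ^ 2 := by
    rw [norm_inv]
    field_simp
    ring
  rw [e, Real.log_div one_add_ne (by positivity), Real.log_pow]
  push_cast
  ring

theorem M0_inv (l x y : ℂ) (hy : y ≠ 0) : M0 l (x, y⁻¹) = M1 l (x, y) := by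
  have h : 0 < ‖y‖ := norm_pos_iff.2 hy
  unfold M0 M1
  congr 1
  have e1 : ‖y⁻¹ - (x - l)‖ = ‖1 - (x - l) * y‖ / ‖y‖ := by
    rw [← norm_div]
    congr 1
    field_simp
  simp only
  rw [e1, norm_inv]
  field_simp
  ring

theorem an_fst (l : ℂ) (z : E) : AnalyticAt ℂ (fun t : E => t.1 - l) z := analyticAt_fst.sub analyticAt_const

theorem an_snd (z : E) : AnalyticAt ℂ (fun t : E => t.2) z := analyticAt_snd

/-! ### The charts 0 and 1 -/

theorem mem_W0 {t : E} (h : t ∈ W) : red t.1 ≠ 0 := fun h0 => h.1 ((red_eq_zero_iff _).1 h0)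

theorem chart0 (z : E) (hz : z ∈ V 0) : ∃ ρ, PotAt Phi 0 z ρ := by
  have hc : ∀ z', tr 0 z' ∈ W → ContinuousAt (tr 0) z' := fun z' _ => continuousAt_id
  by_cases hA : 1 / 4 < ‖red z.1‖
  · refine potAt_of 0 z (fun t => 3 * Real.log (1 + ‖t.2‖ ^ 2)) 0 0 (fun _ => 1) (fun _ => 1) ?_ hc
      (fun _ => analyticAt_const) (fun _ => analyticAt_const) ?_ ?_
    · exact Eventually.of_forall (fun t => contDiffAt_const.mul (sm_L (sm_snd t)))
    · exact Eventually.of_forall (fun t _ => ⟨one_ne_zero, one_ne_zero⟩)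
    · have h1 : ∀ᶠ t : E in 𝓝 z, 1 / 4 < ‖red t.1‖ :=
        (cont_norm_red.comp continuous_fst).continuousAt.eventually (lt_mem_nhds hA)
      filter_upwards [h1] with t ht _
      simp [tr, Phi, chi_zero t.1 ht.le]
  · have hB : ‖red z.1‖ < 1 / 2 := by
      push Not at hA
      linarith
    set l := z.1 - red z.1 with hl
    have hloc : ∀ᶠ t : E in 𝓝 z, red t.1 = t.1 - l :=
      (continuous_fst.continuousAt (x := z)).eventually (red_local z.1 hB)
    have hz1 : z.1 - l = red z.1 := by rw [hl]; ring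
    by_cases h0 : red z.1 = 0
    · have hy : z.2 ≠ 0 := by
        rcases hz with h | h
        · exact absurd ((red_eq_zero_iff _).1 h0) h
        · exact h
      refine potAt_of 0 z (fun t => 3 * Real.log (1 + ‖t.2‖ ^ 2) + M0 l t) 2 0 (fun t => t.1 - l) (fun _ => 1) ?_ hc
        (an_fst l) (fun _ => analyticAt_const) ?_ ?_
      · have h1 : ∀ᶠ t : E in 𝓝 z, t.2 ≠ 0 :=
          continuous_snd.continuousAt.eventually (isOpen_ne.mem_nhds hy)
        filter_upwards [h1] with t ht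
        exact (contDiffAt_const.mul (sm_L (sm_snd t))).add (sm_M0 l t (Or.inr ht))
      · filter_upwards [hloc] with t ht hW
        refine ⟨?_, one_ne_zero⟩
        rw [← ht]
        exact mem_W0 hW
      · have h1 : ∀ᶠ t : E in 𝓝 z, ‖red t.1‖ < 1 / 8 := by
          refine (cont_norm_red.comp continuous_fst).continuousAt.eventually (gt_mem_nhds ?_)
          simp [h0]
        filter_upwards [hloc, h1] with t ht h2 hW
        change _ - Phi t = _
        simp only [Phi, chi_one t.1 h2.le, L2, ht, M0, Real.log_pow]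
        simp
    · refine potAt_of 0 z (fun t => 3 * Real.log (1 + ‖t.2‖ ^ 2) + bump (t.1 - l) * (M0 l t - Real.log (‖t.1 - l‖ ^ 2)))
        0 0 (fun _ => 1) (fun _ => 1) ?_ hc
        (fun _ => analyticAt_const) (fun _ => analyticAt_const) ?_ ?_
      · have h1 : ∀ᶠ t : E in 𝓝 z, t.1 - l ≠ 0 := by
          have : Continuous (fun t : E => t.1 - l) := by fun_prop
          refine this.continuousAt.eventually (isOpen_ne.mem_nhds ?_)
          change z.1 - l ≠ 0
          rw [hz1]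
          exact h0
        filter_upwards [h1] with t ht
        refine (contDiffAt_const.mul (sm_L (sm_snd t))).add ((sm_bump l t).mul ((sm_M0 l t (Or.inl ht)).sub ?_))
        exact sm_log (sm_nsq (sm_fst l t)) (by positivity)
      · exact Eventually.of_forall (fun t _ => ⟨one_ne_zero, one_ne_zero⟩)
      · filter_upwards [hloc] with t ht _
        change _ - Phi t = _
        simp only [Phi, chi, L2, ht, M0]
        simp

theorem chart1 (z : E) : ∃ ρ, PotAt Phi 1 z ρ := by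
  have hy0 : ∀ z', tr 1 z' ∈ W → z'.2 ≠ 0 := by
    intro z' h h0
    apply h.2
    simp [tr, h0]
  have hc : ∀ z', tr 1 z' ∈ W → ContinuousAt (tr 1) z' := by
    intro z' h
    exact continuous_fst.continuousAt.prodMk (continuous_snd.continuousAt.inv₀ (hy0 z' h))
  by_cases hA : 1 / 4 < ‖red z.1‖
  · refine potAt_of 1 z (fun t => 3 * Real.log (1 + ‖t.2‖ ^ 2)) 6 0 (fun t => t.2) (fun _ => 1) ?_ hc
      an_snd (fun _ => analyticAt_const) ?_ ?_
    · exact Eventually.of_forall (fun t => contDiffAt_const.mul (sm_L (sm_snd t)))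
    · exact Eventually.of_forall (fun t ht => ⟨hy0 t ht, one_ne_zero⟩)
    · have h1 : ∀ᶠ t : E in 𝓝 z, 1 / 4 < ‖red t.1‖ :=
        (cont_norm_red.comp continuous_fst).continuousAt.eventually (lt_mem_nhds hA)
      filter_upwards [h1] with t ht hW
      simp only [tr, Phi, chi_zero t.1 ht.le, log_one_inv t.2 (hy0 t hW)]
      simp
      ring
  · have hB : ‖red z.1‖ < 1 / 2 := by
      push Not at hA
      linarith
    set l := z.1 - red z.1 with hl
    have hloc : ∀ᶠ t : E in 𝓝 z, red t.1 = t.1 - l :=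
      (continuous_fst.continuousAt (x := z)).eventually (red_local z.1 hB)
    have hz1 : z.1 - l = red z.1 := by rw [hl]; ring
    have hL2 : ∀ t : E, red t.1 = t.1 - l → t.2 ≠ 0 → L2 (t.1, t.2⁻¹) = M1 l t := by
      intro t ht hy
      have h := M0_inv l t.1 t.2 hy
      simp only [L2, M0] at h ⊢
      rw [ht, h]
    by_cases h0 : red z.1 = 0
    · refine potAt_of 1 z (fun t => 3 * Real.log (1 + ‖t.2‖ ^ 2) + M1 l t) 6 2 (fun t => t.2) (fun t => t.1 - l) ?_ hc
        an_snd (an_fst l) ?_ ?_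
      · exact Eventually.of_forall (fun t => (contDiffAt_const.mul (sm_L (sm_snd t))).add (sm_M1 l t))
      · filter_upwards [hloc] with t ht hW
        refine ⟨hy0 t hW, ?_⟩
        rw [← ht]
        exact mem_W0 (t := tr 1 t) hW
      · have h1 : ∀ᶠ t : E in 𝓝 z, ‖red t.1‖ < 1 / 8 := by
          refine (cont_norm_red.comp continuous_fst).continuousAt.eventually (gt_mem_nhds ?_)
          simp [h0]
        filter_upwards [hloc, h1] with t ht h2 hW
        change _ - Phi (t.1, t.2⁻¹) = _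
        simp only [Phi, chi_one t.1 h2.le, hL2 t ht (hy0 t hW), ht, log_one_inv t.2 (hy0 t hW), Real.log_pow]
        push_cast
        ring
    · refine potAt_of 1 z (fun t => 3 * Real.log (1 + ‖t.2‖ ^ 2) + bump (t.1 - l) * (M1 l t - Real.log (‖t.1 - l‖ ^ 2)))
        6 0 (fun t => t.2) (fun _ => 1) ?_ hc
        an_snd (fun _ => analyticAt_const) ?_ ?_
      · have h1 : ∀ᶠ t : E in 𝓝 z, t.1 - l ≠ 0 := by
          have : Continuous (fun t : E => t.1 - l) := by fun_prop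
          refine this.continuousAt.eventually (isOpen_ne.mem_nhds ?_)
          change z.1 - l ≠ 0
          rw [hz1]
          exact h0
        filter_upwards [h1] with t ht
        refine (contDiffAt_const.mul (sm_L (sm_snd t))).add ((sm_bump l t).mul ((sm_M1 l t).sub ?_))
        exact sm_log (sm_nsq (sm_fst l t)) (by positivity)
      · exact Eventually.of_forall (fun t ht => ⟨hy0 t ht, one_ne_zero⟩)
      · filter_upwards [hloc] with t ht hW
        change _ - Phi (t.1, t.2⁻¹) = _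
        simp only [Phi, chi, hL2 t ht (hy0 t hW), ht, log_one_inv t.2 (hy0 t hW)]
        simp
        ring

/-! ### The charts 2, 3 and 4 -/

theorem phi_near0 {x y : ℂ} (hx : ‖x‖ < 1 / 8) :
    Phi (x, y) = 3 * Real.log (1 + ‖y‖ ^ 2)
      + (Real.log ((‖y - x‖ ^ 2 + ‖x‖ ^ 4) / (1 + ‖y‖ ^ 2)) - Real.log (‖x‖ ^ 2)) := by
  have hr : red x = x := red_small x (by linarith)
  have hc : chi x = 1 := chi_one x (by rw [hr]; exact hx.le)
  simp only [Phi, L2, hr, hc, one_mul]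

theorem zero_mem : (0 : ℂ) ∈ Lam := ⟨0, 0, by simp⟩

theorem phi_chart {x y : ℂ} (hx : ‖x‖ < 1 / 8) (p M : ℝ) (hp : 0 < p) (hM : 0 < M)
    (h : ‖y - x‖ ^ 2 + ‖x‖ ^ 4 = p * M) :
    2 * Real.log (1 + ‖y‖ ^ 2) + Real.log M - Phi (x, y) = Real.log (‖x‖ ^ 2) - Real.log p := by
  rw [phi_near0 hx, h, Real.log_div (mul_pos hp hM).ne' one_add_ne, Real.log_mul hp.ne' hM.ne']
  ring

theorem chart2 (z : E) (hz : z ∈ V 2) : ∃ ρ, PotAt Phi 2 z ρ := by
  have hne : ∀ t, tr 2 t ∈ W → t.1 ≠ 0 ∧ t.2 ≠ 0 := by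
    intro t h
    have h1 : t.1 * t.2 ≠ 0 := fun h0 => h.1 (by change t.1 * t.2 ∈ Lam; rw [h0]; exact zero_mem)
    exact ⟨left_ne_zero_of_mul h1, right_ne_zero_of_mul h1⟩
  have hsm : ∀ t : E, ContDiffAt ℝ ∞ (fun t : E => t.2 + t.1 * t.2) t := fun t => by fun_prop
  refine potAt_of 2 z (fun t => 2 * Real.log (1 + ‖t.2 + t.1 * t.2‖ ^ 2) + Real.log (1 + ‖t.1‖ ^ 4 * ‖t.2‖ ^ 2)) 2 0
    (fun t => t.1) (fun _ => 1) ?_ ?_ (fun _ => analyticAt_fst) (fun _ => analyticAt_const) ?_ ?_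
  · refine Eventually.of_forall (fun t => (contDiffAt_const.mul (sm_L (hsm t))).add (sm_log ?_ (by positivity)))
    exact contDiffAt_const.add ((sm_n4 contDiffAt_fst).mul (sm_nsq contDiffAt_snd))
  · intro t _
    have : Continuous (tr 2) := by
      change Continuous (fun z : E => (z.1 * z.2, z.2 + z.1 * z.2))
      fun_prop
    exact this.continuousAt
  · exact Eventually.of_forall (fun t ht => ⟨(hne t ht).1, one_ne_zero⟩)
  · have h1 : ∀ᶠ t : E in 𝓝 z, ‖t.1 * t.2‖ < 1 / 8 := by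
      have : Continuous (fun t : E => ‖t.1 * t.2‖) := by fun_prop
      exact this.continuousAt.eventually (gt_mem_nhds hz.1)
    filter_upwards [h1] with t ht hW
    have hx := norm_pos_iff.2 (hne t hW).1
    have hy := norm_pos_iff.2 (hne t hW).2
    change _ - Phi (t.1 * t.2, t.2 + t.1 * t.2) = _
    rw [phi_chart ht (‖t.2‖ ^ 2) (1 + ‖t.1‖ ^ 4 * ‖t.2‖ ^ 2) (by positivity) (by positivity) (by
      rw [add_sub_cancel_right, norm_mul]
      ring)]
    rw [norm_mul, mul_pow, Real.log_mul (by positivity) (by positivity), Real.log_pow, Real.log_pow]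
    simp

theorem chart3 (z : E) (hz : z ∈ V 3) : ∃ ρ, PotAt Phi 3 z ρ := by
  have hne : ∀ t, tr 3 t ∈ W → t.1 ≠ 0 ∧ t.2 ≠ 0 := by
    intro t h
    have h1 : t.1 * t.2 ≠ 0 := fun h0 => h.1 (by change t.1 * t.2 ∈ Lam; rw [h0]; exact zero_mem)
    exact ⟨left_ne_zero_of_mul h1, right_ne_zero_of_mul h1⟩
  have hsm : ∀ t : E, ContDiffAt ℝ ∞ (fun t : E => t.1 * t.2 ^ 2 + t.1 * t.2) t := fun t => by fun_prop
  refine potAt_of 3 z (fun t => 2 * Real.log (1 + ‖t.1 * t.2 ^ 2 + t.1 * t.2‖ ^ 2) + Real.log (1 + ‖t.1‖ ^ 2)) (-2) 0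
    (fun t => t.2) (fun _ => 1) ?_ ?_ (fun _ => analyticAt_snd) (fun _ => analyticAt_const) ?_ ?_
  · refine Eventually.of_forall (fun t => (contDiffAt_const.mul (sm_L (hsm t))).add (sm_L contDiffAt_fst))
  · intro t _
    have : Continuous (tr 3) := by
      change Continuous (fun z : E => (z.1 * z.2, z.1 * z.2 ^ 2 + z.1 * z.2))
      fun_prop
    exact this.continuousAt
  · exact Eventually.of_forall (fun t ht => ⟨(hne t ht).2, one_ne_zero⟩)
  · have h1 : ∀ᶠ t : E in 𝓝 z, ‖t.1 * t.2‖ < 1 / 8 := by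
      have : Continuous (fun t : E => ‖t.1 * t.2‖) := by fun_prop
      exact this.continuousAt.eventually (gt_mem_nhds hz.1)
    filter_upwards [h1] with t ht hW
    have hx := norm_pos_iff.2 (hne t hW).1
    have hy := norm_pos_iff.2 (hne t hW).2
    change _ - Phi (t.1 * t.2, t.1 * t.2 ^ 2 + t.1 * t.2) = _
    rw [phi_chart ht (‖t.1‖ ^ 2 * ‖t.2‖ ^ 4) (1 + ‖t.1‖ ^ 2) (by positivity) (by positivity) (by
      rw [add_sub_cancel_right, norm_mul, norm_mul, norm_pow]
      ring)]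
    rw [norm_mul, mul_pow, Real.log_mul (by positivity) (by positivity), Real.log_mul (by positivity) (by positivity),
      Real.log_pow, Real.log_pow, Real.log_pow]
    push_cast
    ring

theorem chart4 (z : E) (hz : z ∈ V 4) : ∃ ρ, PotAt Phi 4 z ρ := by
  have hne : ∀ t, tr 4 t ∈ W → t.1 ≠ 0 := by
    intro t h h0
    exact h.1 (by change t.1 ∈ Lam; rw [h0]; exact zero_mem)
  have hsm : ∀ t : E, ContDiffAt ℝ ∞ (fun t : E => t.1 ^ 2 * t.2 + t.1) t := fun t => by fun_prop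
  refine potAt_of 4 z (fun t => 2 * Real.log (1 + ‖t.1 ^ 2 * t.2 + t.1‖ ^ 2) + Real.log (1 + ‖t.2‖ ^ 2)) (-2) 0
    (fun t => t.1) (fun _ => 1) ?_ ?_ (fun _ => analyticAt_fst) (fun _ => analyticAt_const) ?_ ?_
  · refine Eventually.of_forall (fun t => (contDiffAt_const.mul (sm_L (hsm t))).add (sm_L contDiffAt_snd))
  · intro t _
    have : Continuous (tr 4) := by
      change Continuous (fun z : E => (z.1, z.1 ^ 2 * z.2 + z.1))
      fun_prop
    exact this.continuousAt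
  · exact Eventually.of_forall (fun t ht => ⟨hne t ht, one_ne_zero⟩)
  · have h1 : ∀ᶠ t : E in 𝓝 z, ‖t.1‖ < 1 / 8 := by
      have : Continuous (fun t : E => ‖t.1‖) := by fun_prop
      exact this.continuousAt.eventually (gt_mem_nhds hz.1)
    filter_upwards [h1] with t ht hW
    have hx := norm_pos_iff.2 (hne t hW)
    change _ - Phi (t.1, t.1 ^ 2 * t.2 + t.1) = _
    rw [phi_chart ht (‖t.1‖ ^ 4) (1 + ‖t.2‖ ^ 2) (by positivity) (by positivity) (by
      rw [add_sub_cancel_right, norm_mul, norm_pow]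
      ring)]
    rw [Real.log_pow, Real.log_pow]
    push_cast
    ring

theorem stPhi : StPhi := by
  refine ⟨per_phi, fun j z hz => ?_⟩
  fin_cases j
  · exact chart0 z hz
  · exact chart1 z
  · exact chart2 z hz
  · exact chart3 z hz
  · exact chart4 z hz

end Pool.Agent.Y310.SP
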