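import Pool.Agent.Y395.SP.Stm2
import Pool.Agent.Y395.SP.Asm

set_option autoImplicit false

/-! Splay trees, project SP part 2: smoothed adversaries. -/

namespace Pool.Agent.Y310.SP.SMO

open Pool.Agent.Y395.SP Pool.Agent.H581R2.Splay Pool.Agent.TH49.Spl

noncomputable section

open scoped Classical in
/-- the number of good requests -/
def Z (good : List ℕ → ℕ → Prop) : List ℕ → List ℕ → ℕ
  | _, [] => 0
  | h, x :: X => (if good h x then 1 else 0) + Z good (x :: h) X

open scoped Classical in
/-- the weights -/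
def wt (good : List ℕ → ℕ → Prop) (π : List ℕ → ℕ → ℝ) (h : List ℕ) (x : ℕ) : ℝ :=
  if good h x then π h x * (1 / 2) else π h x

theorem law_wt (good : List ℕ → ℕ → Prop) (π : List ℕ → ℕ → ℝ) (X : List ℕ) :
    ∀ h, law (wt good π) h X = law π h X * (1 / 2 : ℝ) ^ (Z good h X) := by
  induction X with
  | nil => intro h; simp [law, Z]
  | cons x X ih =>
    intro h
    simp only [law, Z, wt, ih]
    split_ifs with hg
    · rw [pow_add]; ring
    · rw [zero_add]; ring

theorem sum_law_le {K : Finset ℕ} {w : List ℕ → ℕ → ℝ} {c : ℝ} (h0 : ∀ h x, 0 ≤ w h x)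
    (hc : 0 ≤ c) (h1 : ∀ h, ∑ x ∈ K, w h x ≤ c) :
    ∀ (m : ℕ) (h : List ℕ), ∑ X ∈ seqs K m, law w h (List.ofFn X) ≤ c ^ m := by
  intro m
  induction m with
  | zero =>
    intro h
    have : seqs K 0 = {Fin.elim0} := by
      ext X
      simp only [seqs, Fintype.mem_piFinset, Finset.mem_singleton]
      exact ⟨fun _ => funext fun i => i.elim0, fun _ i => i.elim0⟩
    rw [this, Finset.sum_singleton]
    simp [law]
  | succ m ih =>
    intro h
    have : ∑ X ∈ seqs K (m + 1), law w h (List.ofFn X) =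
        ∑ p ∈ K ×ˢ seqs K m, w h p.1 * law w (p.1 :: h) (List.ofFn p.2) := by
      refine Finset.sum_nbij' (fun X => (X 0, Fin.tail X)) (fun p => Fin.cons p.1 p.2) ?_ ?_ ?_ ?_ ?_
      · intro X hX
        simp only [seqs, Fintype.mem_piFinset] at hX
        simp only [Finset.mem_product, seqs, Fintype.mem_piFinset]
        exact ⟨hX 0, fun i => hX i.succ⟩
      · intro p hp
        simp only [Finset.mem_product, seqs, Fintype.mem_piFinset] at hp
        simp only [seqs, Fintype.mem_piFinset]
        intro i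
        refine Fin.cases ?_ (fun j => ?_) i
        · simpa using hp.1
        · simpa using hp.2 j
      · intro X _; exact Fin.cons_self_tail X
      · intro p _; simp
      · intro X _
        rw [List.ofFn_succ]
        simp only [law]
        rfl
    rw [this, Finset.sum_product]
    calc ∑ x ∈ K, ∑ y ∈ seqs K m, w h x * law w (x :: h) (List.ofFn y)
        ≤ ∑ x ∈ K, w h x * c ^ m := by
          refine Finset.sum_le_sum fun x _ => ?_
          rw [← Finset.mul_sum]
          exact mul_le_mul_of_nonneg_left (ih _) (h0 h x)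
      _ = (∑ x ∈ K, w h x) * c ^ m := by rw [Finset.sum_mul]
      _ ≤ c * c ^ m := mul_le_mul_of_nonneg_right (h1 h) (pow_nonneg hc m)
      _ = c ^ (m + 1) := by ring

theorem law_le_Z {good : List ℕ → ℕ → Prop} {π : List ℕ → ℕ → ℝ} {K : Finset ℕ} {q : ℝ}
    (h0 : ∀ h x, 0 ≤ π h x) (h1 : ∀ h, ∀ x ∈ K, π h x ≤ 1) (hq : 0 ≤ q)
    (hg : ∀ h x, good h x → π h x ≤ q) (X : List ℕ) :
    ∀ h, (∀ x ∈ X, x ∈ K) → law π h X ≤ q ^ (Z good h X) := by
  induction X with
  | nil => intro h _; simp [law, Z]
  | cons x X ih =>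
    intro h hX
    have h3 := ih (x :: h) (fun y hy => hX y (by simp [hy]))
    simp only [law, Z]
    split_ifs with hgx
    · rw [pow_add, pow_one]
      exact mul_le_mul (hg h x hgx) h3 (law_nonneg h0 X _) hq
    · rw [zero_add]
      calc π h x * law π (x :: h) X ≤ 1 * q ^ (Z good (x :: h) X) :=
            mul_le_mul (h1 h x (hX x (by simp))) h3 (law_nonneg h0 X _) zero_le_one
        _ = _ := one_mul _

/-- few good requests are unlikely -/
theorem few {good : List ℕ → ℕ → Prop} {π : List ℕ → ℕ → ℝ} {K : Finset ℕ} {ε : ℝ}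
    (h0 : ∀ h x, 0 ≤ π h x) (hε : 0 < ε) (hε1 : ε ≤ 1)
    (hw : ∀ h, ∑ x ∈ K, wt good π h x ≤ 1 - ε / 2) (m : ℕ) (P : (Fin m → ℕ) → Prop)
    [DecidablePred P] (hP : ∀ X, P X → (Z good [] (List.ofFn X) : ℝ) ≤ ε * m / 4) :
    ∑ X ∈ (seqs K m).filter P, law π [] (List.ofFn X) ≤ Real.exp (-(ε * m / 4)) := by
  have hwt0 : ∀ h x, 0 ≤ wt good π h x := by
    intro h x
    unfold wt
    have := h0 h x
    split_ifs
    · positivity
    · exact this
  have h1 := sum_law_le hwt0 (by linarith : 0 ≤ 1 - ε / 2) hw m []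
  have hlaw : ∀ X : Fin m → ℕ, P X → law π [] (List.ofFn X) ≤
      (2 : ℝ) ^ (ε * m / 4) * law (wt good π) [] (List.ofFn X) := by
    intro X hX
    rw [law_wt]
    have h2 := hP X hX
    have h3 : (1 : ℝ) ≤ (2 : ℝ) ^ (ε * m / 4) * (1 / 2 : ℝ) ^ (Z good [] (List.ofFn X)) := by
      have e : (1 / 2 : ℝ) ^ (Z good [] (List.ofFn X)) =
          (2 : ℝ) ^ (-(Z good [] (List.ofFn X) : ℝ)) := by
        rw [Real.rpow_neg (by norm_num), Real.rpow_natCast, one_div, inv_pow]
      rw [e, ← Real.rpow_add (by norm_num)]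
      exact Real.one_le_rpow (by norm_num) (by linarith)
    have h4 := law_nonneg h0 (List.ofFn X) []
    calc law π [] (List.ofFn X) = law π [] (List.ofFn X) * 1 := (mul_one _).symm
      _ ≤ law π [] (List.ofFn X) *
          ((2 : ℝ) ^ (ε * m / 4) * (1 / 2 : ℝ) ^ (Z good [] (List.ofFn X))) :=
          mul_le_mul_of_nonneg_left h3 h4
      _ = _ := by ring
  calc ∑ X ∈ (seqs K m).filter P, law π [] (List.ofFn X)
      ≤ ∑ X ∈ (seqs K m).filter P, (2 : ℝ) ^ (ε * m / 4) * law (wt good π) [] (List.ofFn X) :=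
        Finset.sum_le_sum fun X hX => hlaw X (Finset.mem_filter.1 hX).2
    _ ≤ ∑ X ∈ seqs K m, (2 : ℝ) ^ (ε * m / 4) * law (wt good π) [] (List.ofFn X) :=
        Finset.sum_le_sum_of_subset_of_nonneg (Finset.filter_subset _ _) fun X _ _ =>
          mul_nonneg (by positivity) (law_nonneg hwt0 _ _)
    _ = (2 : ℝ) ^ (ε * m / 4) * ∑ X ∈ seqs K m, law (wt good π) [] (List.ofFn X) := by
        rw [Finset.mul_sum]
    _ ≤ (2 : ℝ) ^ (ε * m / 4) * (1 - ε / 2) ^ m :=
        mul_le_mul_of_nonneg_left h1 (by positivity)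
    _ ≤ Real.exp (ε * m / 4) * Real.exp (-(ε * m / 2)) := by
        refine mul_le_mul ?_ ?_ (pow_nonneg (by linarith) m) (Real.exp_pos _).le
        · rw [Real.rpow_def_of_pos (by norm_num)]
          apply Real.exp_le_exp.2
          have h5 : Real.log 2 ≤ 1 := by
            have := Real.log_le_sub_one_of_pos (by norm_num : (0 : ℝ) < 2)
            linarith
          have h6 : 0 ≤ ε * m / 4 := by positivity
          nlinarith
        · have h7 : 1 - ε / 2 ≤ Real.exp (-(ε / 2)) := by
            have := Real.add_one_le_exp (-(ε / 2))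
            linarith
          calc (1 - ε / 2) ^ m ≤ Real.exp (-(ε / 2)) ^ m :=
                pow_le_pow_left₀ (by linarith) h7 m
            _ = Real.exp (-(ε * m / 2)) := by
                rw [← Real.exp_nat_mul]; congr 1; ring
    _ = Real.exp (-(ε * m / 4)) := by
        rw [← Real.exp_add]; congr 1; ring

theorem main (hU : SUpper) : SSmooth := by
  classical
  intro T hT hn π h0 h1 A δ ε hA hδ hδ1 hε hε1 hgood m
  set K := (keys T).toFinset with hK
  set n : ℝ := ((keys T).length : ℝ) with hnn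
  have hnat : 1 ≤ (keys T).length := by
    cases hTc : T with
    | nil => exact absurd hTc hn
    | node a l r => simp only [keys, List.length_append, List.length_cons]; omega
  have hn1 : (1 : ℝ) ≤ n := by
    rw [hnn]; exact_mod_cast hnat
  have hn0 : (0 : ℝ) < n := by linarith
  have hA0 : (0 : ℝ) < A := by linarith
  set q : ℝ := A * n ^ (-δ) with hq
  have hq0 : 0 < q := by positivity
  set good : List ℕ → ℕ → Prop := fun h x => π h x ≤ q with hgd
  have hπ1 : ∀ h, ∀ x ∈ K, π h x ≤ 1 := by
    intro h x hx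
    rw [← h1 h]
    exact Finset.single_le_sum (fun y _ => h0 h y) hx
  have hw : ∀ h, ∑ x ∈ K, wt good π h x ≤ 1 - ε / 2 := by
    intro h
    have h2 := hgood h
    rw [Finset.sum_filter] at h2
    have h3 : ∀ x ∈ K, wt good π h x =
        π h x - 1 / 2 * (if π h x ≤ A * n ^ (-δ) then π h x else 0) := by
      intro x _
      unfold wt
      by_cases hx : good h x
      · have hx' : π h x ≤ A * n ^ (-δ) := hx
        rw [if_pos hx, if_pos hx']; ring
      · have hx' : ¬ π h x ≤ A * n ^ (-δ) := hx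
        rw [if_neg hx, if_neg hx']; ring
    rw [Finset.sum_congr rfl h3, Finset.sum_sub_distrib, h1 h, ← Finset.mul_sum]
    linarith
  have hL : 0 ≤ Real.logb 2 A := Real.logb_nonneg (by norm_num) hA
  have hlg : Real.logb 2 (2 * n) = 1 + Real.logb 2 n := by
    rw [Real.logb_mul (by norm_num) (by linarith), Real.logb_self_eq_one (by norm_num)]
  have hlg0 : 0 ≤ Real.logb 2 n := Real.logb_nonneg (by norm_num) hn1
  -- the two bad events
  set e : (Fin m → ℕ) → ℕ := fun X => 10 * optAny (keys T) (List.ofFn X) +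
    2 * (keys T).length + 3 with he
  have hE1 : ∑ X ∈ (seqs K m).filter (fun X => law π [] (List.ofFn X) ≤ (1 / 2 : ℝ) ^ (e X + m)),
      law π [] (List.ofFn X) ≤ (1 / 2 : ℝ) ^ m :=
    markov K (fun X => law π [] (List.ofFn X)) e _ (kraft2_holds m (keys T) hT)
      (fun X _ hX => hX)
  have hE2 : ∑ X ∈ (seqs K m).filter (fun X => (Z good [] (List.ofFn X) : ℝ) ≤ ε * m / 4),
      law π [] (List.ofFn X) ≤ Real.exp (-(ε * m / 4)) :=
    few h0 hε hε1 hw m _ (fun X hX => hX)
  have hgoal : 1 - ((1 / 2 : ℝ) ^ m + Real.exp (-(ε * m / 4))) ≤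
    prob K π m (fun X => (costSplay T X : ℝ) ≤
      ((272 + 6 * Real.logb 2 A) * (optAny (keys T) X : ℝ) +
        120 * (n * Real.logb 2 (2 * n))) / (ε * δ)) := by
    refine prob_compl h1 ?_
    unfold prob
    refine le_trans ?_ (add_le_add hE1 hE2)
    refine le_trans (Finset.sum_le_sum_of_subset_of_nonneg
      (t := (seqs K m).filter (fun X => law π [] (List.ofFn X) ≤ (1 / 2 : ℝ) ^ (e X + m)) ∪
        (seqs K m).filter (fun X => (Z good [] (List.ofFn X) : ℝ) ≤ ε * m / 4)) ?_
      (fun X _ _ => law_nonneg h0 _ _)) ?_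
    · intro X hX
      obtain ⟨hXs, hbad⟩ := (@Finset.mem_filter _ _ (_) _ _).1 hX
      rw [Finset.mem_union, Finset.mem_filter, Finset.mem_filter]
      by_contra hcon
      push Not at hcon
      obtain ⟨hc1, hc2⟩ := hcon
      have hc1 := hc1 hXs
      have hc2 := hc2 hXs
      apply hbad
      have hXK : ∀ x ∈ List.ofFn X, x ∈ K := by
        intro x hx
        rw [List.mem_ofFn] at hx
        obtain ⟨i, rfl⟩ := hx
        exact (Fintype.mem_piFinset.mp hXs) i
      have hXK' : ∀ x ∈ List.ofFn X, x ∈ keys T := fun x hx => List.mem_toFinset.mp (hXK x hx)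
      have hlen : (List.ofFn X).length = m := by simp
      have h2 := law_le_Z h0 hπ1 hq0.le (good := good) (fun h x hx => hx) (List.ofFn X) [] hXK
      have h3 : (1 / 2 : ℝ) ^ (e X + m) ≤ q ^ (Z good [] (List.ofFn X)) := hc1.le.trans h2
      have h4 := Real.logb_le_logb_of_le (b := 2) (by norm_num) (by positivity) h3
      rw [Real.logb_pow, Real.logb_pow] at h4
      have e1 : Real.logb 2 (1 / 2 : ℝ) = -1 := by
        rw [one_div, Real.logb_inv, Real.logb_self_eq_one (by norm_num)]
      have e2 : Real.logb 2 q = Real.logb 2 A - δ * Real.logb 2 n := by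
        rw [hq, Real.logb_mul hA0.ne' (by positivity), Real.logb_rpow_eq_mul_logb_of_pos hn0]
        ring
      rw [e1, e2] at h4
      have h5 := hU T (List.ofFn X) (keys T).length hT hn hXK' (by
        refine (Finset.card_le_card ?_).trans (List.toFinset_card_le (keys T))
        intro x hx
        rw [List.mem_toFinset] at hx ⊢
        exact hXK' x hx) hnat
      rw [hlen] at h5
      have h6 : m ≤ optAny (keys T) (List.ofFn X) := by
        have := len_optAny (T := T) (List.ofFn X); rwa [hlen] at this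
      rw [he] at h4
      simp only at h4
      push_cast at h4
      set o : ℝ := (optAny (keys T) (List.ofFn X) : ℝ) with ho
      have h6' : (m : ℝ) ≤ o := by rw [ho]; exact_mod_cast h6
      have hm0 : (0 : ℝ) ≤ m := Nat.cast_nonneg m
      set l : ℝ := Real.logb 2 n with hl
      set a : ℝ := Real.logb 2 A with ha
      set z : ℝ := (Z good [] (List.ofFn X) : ℝ) with hz
      rw [← hnn] at h4 h5
      have h7 : ε * m / 4 * (δ * l - a) ≤ 10 * o + 2 * n + 3 + m := by
        rcases le_total 0 (δ * l - a) with hs | hs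
        · have h8 : ε * m / 4 * (δ * l - a) ≤ z * (δ * l - a) :=
            mul_le_mul_of_nonneg_right hc2.le hs
          linarith
        · have h8 : ε * m / 4 * (δ * l - a) ≤ 0 :=
            mul_nonpos_of_nonneg_of_nonpos (by positivity) hs
          have h9 : 0 ≤ o := hm0.trans h6'
          linarith
      have h8 : ε * δ * (m * l) ≤ (44 + a) * o + 20 * n := by
        have h9 : ε * m * a ≤ o * a := by
          have : ε * m ≤ o := by nlinarith
          exact mul_le_mul_of_nonneg_right this hL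
        nlinarith
      have hεδ : 0 < ε * δ := mul_pos hε hδ
      have hεδ1 : ε * δ ≤ 1 := by nlinarith
      rw [hlg, le_div_iff₀ hεδ]
      have h9 : (costSplay T (List.ofFn X) : ℝ) * (ε * δ) ≤
          (8 * m + 6 * (m * l) + 8 * (n * l)) * (ε * δ) :=
        mul_le_mul_of_nonneg_right h5 hεδ.le
      have hnl : 0 ≤ n * l := mul_nonneg hn0.le hlg0
      have h10 : (8 * (m : ℝ) + 8 * (n * l)) * (ε * δ) ≤ 8 * m + 8 * (n * l) := by
        have hp : 0 ≤ 8 * (m : ℝ) + 8 * (n * l) := by positivity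
        calc (8 * (m : ℝ) + 8 * (n * l)) * (ε * δ) ≤ (8 * (m : ℝ) + 8 * (n * l)) * 1 :=
              mul_le_mul_of_nonneg_left hεδ1 hp
          _ = _ := mul_one _
      nlinarith
    · have h2 := Finset.sum_union_inter (f := fun X => law π [] (List.ofFn X))
        (s₁ := (seqs K m).filter (fun X => law π [] (List.ofFn X) ≤ (1 / 2 : ℝ) ^ (e X + m)))
        (s₂ := (seqs K m).filter (fun X => (Z good [] (List.ofFn X) : ℝ) ≤ ε * m / 4))
      have h3 : 0 ≤ ∑ X ∈ (seqs K m).filter (fun X =>
          law π [] (List.ofFn X) ≤ (1 / 2 : ℝ) ^ (e X + m)) ∩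
          (seqs K m).filter (fun X => (Z good [] (List.ofFn X) : ℝ) ≤ ε * m / 4),
          law π [] (List.ofFn X) := Finset.sum_nonneg fun X _ => law_nonneg h0 _ _
      linarith
  linarith

end

end Pool.Agent.Y310.SP.SMO
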